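import Pool.Agent.Helper3.MM.Low
import Pool.Graph.R_seed8.Y116.UV.Main

/-!
# One trilinear form for an affine scheme
-/

set_option autoImplicit false

open CategoryTheory CategoryTheory.Limits AlgebraicGeometry MvPolynomial Pool.Agent.Y116.UV
  Pool.Agent.Q193.LT

universe v u

namespace Pool.Agent.Helper3.MM

variable {R : Type} [CommRing R]

section ring

variable {n D : ℕ} (hD : 1 ≤ D) (G : Finset (MvPolynomial (Fin n) R)) (r : ℕ)

/-- the indices of the variables of one kind -/
abbrev Ix (n D r : ℕ) : Type := Mon n D ⊕ Fin r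

/-- the polynomial ring -/
abbrev PR (R : Type) [CommRing R] (n D r : ℕ) : Type := MvPolynomial (Ix n D r ⊕ Ix n D r) R

/-- the class of `u_0` -/
noncomputable def ca : Cone hD G := Ideal.Quotient.mk (eqI hD G) (uu R (mo n D))

/-- the class of `v_0` -/
noncomputable def cb : Cone hD G := Ideal.Quotient.mk (eqI hD G) (vv R (mo n D))

lemma ca_cb : ca hD G * cb hD G = cw hD G := by
  rw [ca, cb, cw, map_mul]

/-- the cone with two families of dummy variables -/
abbrev Big : Type := Jk (Jk (Cone hD G) (ca hD G) r) (jc R (ca hD G) r (cb hD G)) r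

/-- the class of a function on the cone -/
noncomputable def bc : UVRing R n D →ₐ[R] Big hD G r :=
  ((jc R (jc R (ca hD G) r (cb hD G)) r).comp (jc R (ca hD G) r)).comp
    (Ideal.Quotient.mkₐ R (eqI hD G))

/-- `t_j` -/
noncomputable def bt (j : Fin r) : Big hD G r :=
  jc R (jc R (ca hD G) r (cb hD G)) r (jt (ca hD G) r j)

/-- `s_j` -/
noncomputable def bs (j : Fin r) : Big hD G r := jt (jc R (ca hD G) r (cb hD G)) r j

lemma bc_eqs (k : Mon n D ⊕ (Mon n D × Fin n) ⊕ G) : bc hD G r (eqs hD G k) = 0 := by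
  have h : Ideal.Quotient.mkₐ R (eqI hD G) (eqs hD G k) = 0 :=
    Ideal.Quotient.eq_zero_iff_mem.mpr (Ideal.subset_span ⟨k, rfl⟩)
  rw [bc, AlgHom.comp_apply, h, map_zero]

lemma bc_bt (j : Fin r) : bc hD G r (uu R (mo n D)) * bt hD G r j = 0 := by
  change jc R (jc R (ca hD G) r (cb hD G)) r (jc R (ca hD G) r (ca hD G)) *
    jc R (jc R (ca hD G) r (cb hD G)) r (jt (ca hD G) r j) = 0
  rw [← map_mul, jc_jt, map_zero]

lemma bc_bs (j : Fin r) : bc hD G r (vv R (mo n D)) * bs hD G r j = 0 :=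
  jc_jt (R := R) (jc R (ca hD G) r (cb hD G)) r j

/-- the values of the variables -/
noncomputable def val : Ix n D r ⊕ Ix n D r → Big hD G r :=
  Sum.elim (Sum.elim (fun m => bc hD G r (uu R m)) (bs hD G r))
    (Sum.elim (fun m => bc hD G r (vv R m)) (bt hD G r))

/-- the surjection -/
noncomputable def pr : PR R n D r →ₐ[R] Big hD G r := aeval (val hD G r)

/-- the inclusion of the old variables -/
def old (n D r : ℕ) : Mon n D ⊕ Mon n D → Ix n D r ⊕ Ix n D r := Sum.map Sum.inl Sum.inl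

lemma pr_old (p : UVRing R n D) : pr hD G r (rename (old n D r) p) = bc hD G r p := by
  have h : (pr hD G r).comp (rename (old n D r)) = bc hD G r := by
    apply MvPolynomial.algHom_ext
    rintro (m | m)
    · rw [AlgHom.comp_apply, rename_X, pr, aeval_X]
      rfl
    · rw [AlgHom.comp_apply, rename_X, pr, aeval_X]
      rfl
  exact congrArg (fun f : UVRing R n D →ₐ[R] _ => f p) h

/-- the indices of the equations -/
abbrev Kx : Type := (Mon n D ⊕ (Mon n D × Fin n) ⊕ G) ⊕ (Fin r ⊕ Fin r)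

/-- the bilinear equations -/
noncomputable def FF : Kx (D := D) G r → PR R n D r
  | Sum.inl k => rename (old n D r) (eqs hD G k)
  | Sum.inr (Sum.inl j) => X (Sum.inl (Sum.inl (mo n D))) * X (Sum.inr (Sum.inr j))
  | Sum.inr (Sum.inr j) => X (Sum.inl (Sum.inr j)) * X (Sum.inr (Sum.inl (mo n D)))

lemma pr_FF (k : Kx (D := D) G r) : pr hD G r (FF hD G r k) = 0 := by
  rcases k with k | j | j
  · exact (pr_old hD G r _).trans (bc_eqs hD G r k)
  · change pr hD G r (X _ * X _) = 0
    rw [map_mul, pr, aeval_X, aeval_X]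
    exact bc_bt hD G r j
  · change pr hD G r (X _ * X _) = 0
    rw [map_mul, pr, aeval_X, aeval_X, mul_comm]
    exact bc_bs hD G r j

/-- the quotient ring -/
abbrev QF : Type := PR R n D r ⧸ Ideal.span (Set.range (FF hD G r))

lemma mk_FF (k : Kx (D := D) G r) :
    Ideal.Quotient.mk (Ideal.span (Set.range (FF hD G r))) (FF hD G r k) = 0 :=
  Ideal.Quotient.eq_zero_iff_mem.mpr (Ideal.subset_span ⟨k, rfl⟩)

/-- from the cone -/
noncomputable def rc : Cone hD G →ₐ[R] QF hD G r :=
  Ideal.Quotient.liftₐ (eqI hD G) ((Ideal.Quotient.mkₐ R (Ideal.span (Set.range (FF hD G r)))).comp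
    (rename (old n D r))) (by
      intro a ha
      have h : eqI hD G ≤ RingHom.ker ((Ideal.Quotient.mkₐ R
          (Ideal.span (Set.range (FF hD G r)))).comp (rename (old n D r))) := by
        rw [eqI, Ideal.span_le]
        rintro _ ⟨k, rfl⟩
        exact mk_FF hD G r (Sum.inl k)
      exact h ha)

lemma rc_mk (p : UVRing R n D) : rc hD G r (Ideal.Quotient.mk _ p) =
    Ideal.Quotient.mk _ (rename (old n D r) p) := rfl

/-- from the cone with one family of dummies -/
noncomputable def rd : Jk (Cone hD G) (ca hD G) r →ₐ[R] QF hD G r :=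
  jl (rc hD G r) (fun j => Ideal.Quotient.mk _ (X (Sum.inr (Sum.inr j)))) (fun j => by
    rw [ca, rc_mk, ← map_mul, uu, rename_X]
    exact mk_FF hD G r (Sum.inr (Sum.inl j)))

lemma rd_jc (x : Cone hD G) : rd hD G r (jc R _ r x) = rc hD G r x := jl_jc _ _ _ _

lemma rd_jt (j : Fin r) : rd hD G r (jt _ r j) = Ideal.Quotient.mk _ (X (Sum.inr (Sum.inr j))) :=
  jl_jt _ _ _ _

/-- the inverse map -/
noncomputable def re : Big hD G r →ₐ[R] QF hD G r :=
  jl (rd hD G r) (fun j => Ideal.Quotient.mk _ (X (Sum.inl (Sum.inr j)))) (fun j => by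
    rw [rd_jc, cb, rc_mk, ← map_mul, vv, rename_X, mul_comm]
    exact mk_FF hD G r (Sum.inr (Sum.inr j)))

lemma re_jc (x : Jk (Cone hD G) (ca hD G) r) : re hD G r (jc R _ r x) = rd hD G r x := jl_jc _ _ _ _

lemma re_bs (j : Fin r) : re hD G r (bs hD G r j) = Ideal.Quotient.mk _ (X (Sum.inl (Sum.inr j))) :=
  jl_jt _ _ _ _

lemma re_bt (j : Fin r) : re hD G r (bt hD G r j) = Ideal.Quotient.mk _ (X (Sum.inr (Sum.inr j))) := by
  rw [bt, re_jc, rd_jt]

lemma re_bc (p : UVRing R n D) : re hD G r (bc hD G r p) =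
    Ideal.Quotient.mk _ (rename (old n D r) p) := by
  rw [bc, AlgHom.comp_apply, AlgHom.comp_apply, re_jc, rd_jc]
  rfl

lemma re_pr (p : PR R n D r) : re hD G r (pr hD G r p) = Ideal.Quotient.mk _ p := by
  have h : (re hD G r).comp (pr hD G r) =
      Ideal.Quotient.mkₐ R (Ideal.span (Set.range (FF hD G r))) := by
    apply MvPolynomial.algHom_ext
    rintro ((m | j) | (m | j))
    · rw [AlgHom.comp_apply, pr, aeval_X]
      change re hD G r (bc hD G r (uu R m)) = _
      rw [re_bc, uu, rename_X]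
      rfl
    · rw [AlgHom.comp_apply, pr, aeval_X]
      exact re_bs hD G r j
    · rw [AlgHom.comp_apply, pr, aeval_X]
      change re hD G r (bc hD G r (vv R m)) = _
      rw [re_bc, vv, rename_X]
      rfl
    · rw [AlgHom.comp_apply, pr, aeval_X]
      exact re_bt hD G r j
  exact congrArg (fun f : PR R n D r →ₐ[R] _ => f p) h

lemma pr_zero (p : PR R n D r) (h : pr hD G r p = 0) : p ∈ Ideal.span (Set.range (FF hD G r)) := by
  have h1 := re_pr hD G r p
  rw [h, map_zero] at h1
  exact Ideal.Quotient.eq_zero_iff_mem.mp h1.symm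

lemma jk_top {A : Type} [CommRing A] [Algebra R A] {a : A} {r : ℕ} (T : Subalgebra R (Jk A a r))
    (h1 : ∀ x, jc R a r x ∈ T) (h2 : ∀ j, jt a r j ∈ T) (x : Jk A a r) : x ∈ T := by
  obtain ⟨p, rfl⟩ := Ideal.Quotient.mk_surjective x
  induction p using MvPolynomial.induction_on with
  | C x => exact h1 x
  | add p q hp hq =>
    rw [map_add]
    exact T.add_mem hp hq
  | mul_X p j hp =>
    rw [map_mul]
    exact T.mul_mem hp (h2 j)

lemma pr_surj : Function.Surjective (pr hD G r) := by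
  intro x
  have hx : x ∈ (pr hD G r).range := by
    refine jk_top _ ?_ ?_ x
    · intro y
      have hy : y ∈ (pr hD G r).range.comap (jc R (jc R (ca hD G) r (cb hD G)) r) := by
        refine jk_top _ ?_ ?_ y
        · intro z
          obtain ⟨p, rfl⟩ := Ideal.Quotient.mk_surjective z
          exact ⟨rename (old n D r) p, pr_old hD G r p⟩
        · intro j
          refine ⟨X (Sum.inr (Sum.inr j)), ?_⟩
          change aeval (val hD G r) (X _) = _
          rw [aeval_X]
          rfl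
      exact hy
    · intro j
      refine ⟨X (Sum.inl (Sum.inr j)), ?_⟩
      change aeval (val hD G r) (X _) = _
      rw [aeval_X]
      rfl
  exact hx

/-- the ring homomorphism of the variables is bilinear -/
lemma rename_bil {β γ : Type} [Fintype β] [Fintype γ] {S : Set R} (h0 : 0 ∈ S) (r : ℕ)
    {f : MvPolynomial (β ⊕ γ) R} (hf : f ∈ bilIn S β γ) :
    rename (Sum.map (Sum.inl : β → β ⊕ Fin r) (Sum.inl : γ → γ ⊕ Fin r)) f ∈
      bilIn S (β ⊕ Fin r) (γ ⊕ Fin r) := by
  obtain ⟨b, hb, rfl⟩ := hf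
  refine ⟨fun j k => Sum.elim (fun j => Sum.elim (fun k => b j k) (fun _ => 0) k) (fun _ => 0) j,
    ?_, ?_⟩
  · rintro (j | j) (k | k)
    · exact hb j k
    · exact h0
    · exact h0
    · exact h0
  · rw [bil_apply, bil_apply, map_sum, Fintype.sum_sum_type]
    have h1 : ∀ j : Fin r, ∑ k : γ ⊕ Fin r, C (Sum.elim (fun j => Sum.elim (fun k => b j k)
        (fun _ => 0) k) (fun _ => 0) (Sum.inr j : β ⊕ Fin r)) * X (Sum.inl (Sum.inr j)) *
        (X (Sum.inr k) : MvPolynomial ((β ⊕ Fin r) ⊕ (γ ⊕ Fin r)) R) = 0 := by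
      intro j
      apply Finset.sum_eq_zero
      intro k _
      simp
    rw [Finset.sum_congr rfl fun j _ => h1 j, Finset.sum_const_zero, add_zero]
    apply Finset.sum_congr rfl
    intro j _
    rw [map_sum, Fintype.sum_sum_type]
    have h2 : ∀ k : Fin r, C (Sum.elim (fun j => Sum.elim (fun k => b j k)
        (fun _ => 0) (Sum.inr k : γ ⊕ Fin r)) (fun _ => 0) (Sum.inl j : β ⊕ Fin r)) *
        X (Sum.inl (Sum.inl j)) *
        (X (Sum.inr (Sum.inr k)) : MvPolynomial ((β ⊕ Fin r) ⊕ (γ ⊕ Fin r)) R) = 0 := by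
      intro k
      simp
    rw [Finset.sum_congr rfl fun j _ => h2 j, Finset.sum_const_zero, add_zero]
    apply Finset.sum_congr rfl
    intro k _
    rw [map_mul, map_mul, rename_C, rename_X, rename_X]
    rfl

lemma FF_mem {S : Set R} (h0 : 0 ∈ S) (h1 : 1 ∈ S) (hS : ∀ g ∈ G, ∀ m, coeff m g ∈ S)
    (k : Kx (D := D) G r) : FF hD G r k ∈ bilIn S (Ix n D r) (Ix n D r) := by
  rcases k with k | j | j
  · exact rename_bil h0 r (eqs_mem hD G h0 h1 hS k)
  · exact single_mem h0 h1 _ _
  · exact single_mem h0 h1 _ _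

end ring

end Pool.Agent.Helper3.MM
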