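import Pool.Graph.R_pool_sql_team_seeded_2aa45f1a.Q193.LT.Coh

/-!
# The rings `A[t_1, …, t_r] / (a t_1, …, a t_r)`

The spectrum consists of `Spec A_a` and of `Spec (A / a) × 𝔸^r`.
-/

set_option autoImplicit false

open MvPolynomial

namespace Pool.Agent.Helper3.MM

variable {R : Type} [CommRing R]

section lifts

variable {P B : Type} [CommRing P] [CommRing B] [Algebra R P] [Algebra R B]

/-- the homomorphism from a localization -/
noncomputable def awlift (w : P) (g : P →ₐ[R] B) (h : IsUnit (g w)) : Localization.Away w →ₐ[R] B :=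
  IsLocalization.liftAlgHom (M := Submonoid.powers w) (f := g) (by
    rintro ⟨_, k, rfl⟩
    rw [map_pow]
    exact h.pow k)

lemma awlift_mk (w : P) (g : P →ₐ[R] B) (h : IsUnit (g w)) (x : P) :
    awlift w g h (algebraMap P (Localization.Away w) x) = g x := by
  rw [awlift, IsLocalization.liftAlgHom_apply, IsLocalization.lift_eq]
  rfl

lemma aw_ext {C : Type} [CommRing C] [Algebra R C] (w : P) (f g : Localization.Away w →ₐ[R] C)
    (h : ∀ x, f (algebraMap P (Localization.Away w) x) = g (algebraMap P (Localization.Away w) x)) :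
    f = g := by
  apply AlgHom.coe_ringHom_injective
  apply IsLocalization.ringHom_ext (Submonoid.powers w)
  ext x
  exact h x

lemma aw_unit (w : P) : IsUnit (algebraMap P (Localization.Away w) w) :=
  IsLocalization.map_units (M := Submonoid.powers w) (Localization.Away w) ⟨w, Submonoid.mem_powers _⟩

end lifts

/-- `A[t_1, …, t_r] / (a t_1, …, a t_r)` -/
abbrev Jk (A : Type) [CommRing A] (a : A) (r : ℕ) : Type :=
  MvPolynomial (Fin r) A ⧸ Ideal.span (Set.range fun j : Fin r => C a * (X j : MvPolynomial (Fin r) A))

variable {A : Type} [CommRing A] [Algebra R A] (a : A) (r : ℕ)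

variable (R) in
/-- the homomorphism `A → Jk A a r` -/
noncomputable def jc : A →ₐ[R] Jk A a r := IsScalarTower.toAlgHom R A (Jk A a r)

/-- the elements `t_j` -/
noncomputable def jt (j : Fin r) : Jk A a r := Ideal.Quotient.mk _ (X j)

lemma jc_apply (x : A) : jc R a r x = Ideal.Quotient.mk _ (C x) := rfl

lemma jc_jt (j : Fin r) : jc R a r a * jt a r j = 0 := by
  rw [jc_apply, jt, ← map_mul]
  exact Ideal.Quotient.eq_zero_iff_mem.mpr (Ideal.subset_span ⟨j, rfl⟩)

lemma jc_jt' (x : A) (j : Fin r) : jc R a r (x * a) * jt a r j = 0 := by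
  rw [map_mul, mul_assoc, jc_jt, mul_zero]

variable {B : Type} [CommRing B] [Algebra R B]

variable {a r} in
/-- homomorphisms from `Jk A a r` -/
noncomputable def jl (g : A →ₐ[R] B) (t : Fin r → B) (h : ∀ j, g a * t j = 0) : Jk A a r →ₐ[R] B :=
  Ideal.Quotient.liftₐ _ (aevalTower g t) (by
    intro x hx
    have h1 : Ideal.span (Set.range fun j : Fin r => C a * (X j : MvPolynomial (Fin r) A)) ≤
        RingHom.ker (aevalTower g t) := by
      rw [Ideal.span_le]
      rintro _ ⟨j, rfl⟩
      change aevalTower g t (C a * X j) = 0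
      rw [map_mul, aevalTower_C, aevalTower_X, h]
    exact h1 hx)

variable {a r}

lemma jl_jc (g : A →ₐ[R] B) (t : Fin r → B) (h : ∀ j, g a * t j = 0) (x : A) :
    jl g t h (jc R a r x) = g x := by
  change aevalTower g t (C x) = g x
  rw [aevalTower_C]

lemma jl_jt (g : A →ₐ[R] B) (t : Fin r → B) (h : ∀ j, g a * t j = 0) (j : Fin r) :
    jl g t h (jt a r j) = t j := by
  change aevalTower g t (X j) = t j
  rw [aevalTower_X]

lemma jk_ext (f g : Jk A a r →ₐ[R] B) (h1 : ∀ x, f (jc R a r x) = g (jc R a r x))
    (h2 : ∀ j, f (jt a r j) = g (jt a r j)) : f = g := by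
  apply AlgHom.coe_ringHom_injective
  apply Ideal.Quotient.ringHom_ext
  apply MvPolynomial.ringHom_ext
  · intro x
    exact h1 x
  · intro j
    exact h2 j

/-- the open part -/
noncomputable def jkOpen : Localization.Away (jc R a r a) ≃ₐ[R] Localization.Away a :=
  AlgEquiv.ofAlgHom
    (awlift (jc R a r a) (jl (IsScalarTower.toAlgHom R A (Localization.Away a)) (fun _ => 0)
      fun _ => mul_zero _) (by
        rw [jl_jc]
        exact aw_unit a))
    (awlift a ((IsScalarTower.toAlgHom R (Jk A a r) (Localization.Away (jc R a r a))).comp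
      (jc R a r)) (aw_unit _))
    (by
      apply aw_ext
      intro x
      rw [AlgHom.comp_apply, awlift_mk]
      change awlift _ _ _ (algebraMap (Jk A a r) _ (jc R a r x)) = _
      rw [awlift_mk, jl_jc]
      rfl)
    (by
      apply aw_ext
      intro x
      rw [AlgHom.comp_apply, awlift_mk]
      have h : (awlift a ((IsScalarTower.toAlgHom R (Jk A a r) (Localization.Away (jc R a r a))).comp
          (jc R a r)) (aw_unit _)).comp (jl (IsScalarTower.toAlgHom R A (Localization.Away a))
            (fun _ => 0) fun _ => mul_zero _) =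
          IsScalarTower.toAlgHom R (Jk A a r) (Localization.Away (jc R a r a)) := by
        apply jk_ext
        · intro x
          rw [AlgHom.comp_apply, jl_jc]
          exact awlift_mk _ _ _ x
        · intro j
          rw [AlgHom.comp_apply, jl_jt, map_zero]
          have h1 : algebraMap (Jk A a r) (Localization.Away (jc R a r a)) (jc R a r a) *
              algebraMap (Jk A a r) (Localization.Away (jc R a r a)) (jt a r j) = 0 := by
            rw [← map_mul, jc_jt, map_zero]
          exact (((aw_unit (jc R a r a)).mul_right_eq_zero).mp h1).symm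
      exact congrArg (fun f : Jk A a r →ₐ[R] _ => f x) h)

variable (R a) in
/-- the class modulo `a` -/
noncomputable def q1 : A →ₐ[R] MvPolynomial (Fin r) (A ⧸ Ideal.span {a}) :=
  (IsScalarTower.toAlgHom R (A ⧸ Ideal.span {a})
    (MvPolynomial (Fin r) (A ⧸ Ideal.span {a}))).comp (Ideal.Quotient.mkₐ R (Ideal.span {a}))

lemma q1_self : q1 R a (r := r) a = 0 := by
  have h : Ideal.Quotient.mkₐ R (Ideal.span {a}) a = 0 :=
    Ideal.Quotient.eq_zero_iff_mem.mpr (Ideal.mem_span_singleton_self a)
  rw [q1, AlgHom.comp_apply, h, map_zero]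

variable (R a r) in
/-- to the polynomial ring, first step -/
noncomputable def cf0 : Jk A a r →ₐ[R] MvPolynomial (Fin r) (A ⧸ Ideal.span {a}) :=
  jl (q1 R a) (fun j => X j) (fun j => by rw [q1_self, zero_mul])

lemma cf0_jc (x : A) : cf0 R a r (jc R a r x) = q1 R a x := jl_jc _ _ _ _

lemma cf0_jt (j : Fin r) : cf0 R a r (jt a r j) = X j := jl_jt _ _ _ _

variable (R a r) in
/-- to the polynomial ring -/
noncomputable def cf : (Jk A a r ⧸ Ideal.span {jc R a r a}) →ₐ[R]
    MvPolynomial (Fin r) (A ⧸ Ideal.span {a}) :=
  Ideal.Quotient.liftₐ _ (cf0 R a r) (by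
    intro x hx
    have h1 : Ideal.span {jc R a r a} ≤ RingHom.ker (cf0 R a r) := by
      rw [Ideal.span_le, Set.singleton_subset_iff]
      change cf0 R a r (jc R a r a) = 0
      rw [cf0_jc, q1_self]
    exact h1 hx)

lemma cf_mk (x : Jk A a r) : cf R a r (Ideal.Quotient.mk _ x) = cf0 R a r x := rfl

variable (R a r) in
/-- from the polynomial ring, first step -/
noncomputable def cg0 : (A ⧸ Ideal.span {a}) →ₐ[R] (Jk A a r ⧸ Ideal.span {jc R a r a}) :=
  Ideal.Quotient.liftₐ (Ideal.span {a})
    ((Ideal.Quotient.mkₐ R (Ideal.span {jc R a r a})).comp (jc R a r)) (by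
      intro x hx
      have h1 : Ideal.span {a} ≤ RingHom.ker
          ((Ideal.Quotient.mkₐ R (Ideal.span {jc R a r a})).comp (jc R a r)) := by
        rw [Ideal.span_le, Set.singleton_subset_iff]
        exact Ideal.Quotient.eq_zero_iff_mem.mpr (Ideal.mem_span_singleton_self _)
      exact h1 hx)

lemma cg0_mk (x : A) : cg0 R a r (Ideal.Quotient.mk _ x) = Ideal.Quotient.mk _ (jc R a r x) := rfl

variable (R a r) in
/-- from the polynomial ring -/
noncomputable def cg : MvPolynomial (Fin r) (A ⧸ Ideal.span {a}) →ₐ[R]
    (Jk A a r ⧸ Ideal.span {jc R a r a}) :=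
  aevalTower (cg0 R a r) fun j => Ideal.Quotient.mk _ (jt a r j)

lemma cg_C (x : A ⧸ Ideal.span {a}) : cg R a r (C x) = cg0 R a r x := aevalTower_C _ _ _

lemma cg_X (j : Fin r) : cg R a r (X j) = Ideal.Quotient.mk _ (jt a r j) := aevalTower_X _ _ _

/-- the closed part -/
noncomputable def jkClosed : (Jk A a r ⧸ Ideal.span {jc R a r a}) ≃ₐ[R]
    MvPolynomial (Fin r) (A ⧸ Ideal.span {a}) :=
  AlgEquiv.ofAlgHom (cf R a r) (cg R a r)
    (by
      apply AlgHom.coe_ringHom_injective
      apply MvPolynomial.ringHom_ext
      · intro x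
        obtain ⟨x, rfl⟩ := Ideal.Quotient.mk_surjective x
        change cf R a r (cg R a r (C _)) = _
        rw [cg_C, cg0_mk, cf_mk, cf0_jc]
        rfl
      · intro j
        change cf R a r (cg R a r (X _)) = _
        rw [cg_X, cf_mk, cf0_jt]
        rfl)
    (by
      apply Ideal.Quotient.algHom_ext
      refine jk_ext (R := R) (A := A) (a := a) (r := r) (B := Jk A a r ⧸ Ideal.span {jc R a r a}) _ _ ?_ ?_
      · intro x
        change cg R a r (cf R a r (Ideal.Quotient.mk _ (jc R a r x))) = _
        rw [cf_mk, cf0_jc]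
        change cg R a r (C (Ideal.Quotient.mk _ x)) = _
        rw [cg_C, cg0_mk]
        rfl
      · intro j
        change cg R a r (cf R a r (Ideal.Quotient.mk _ (jt a r j))) = _
        rw [cf_mk, cf0_jt, cg_X]
        rfl)

section away

variable (b : A)

variable (R a r) in
/-- first step -/
noncomputable def bf0 : Jk A a r →ₐ[R] Jk (Localization.Away b) (algebraMap A _ a) r :=
  jl ((jc R (algebraMap A (Localization.Away b) a) r).comp
    (IsScalarTower.toAlgHom R A (Localization.Away b)))
    (fun j => jt (algebraMap A (Localization.Away b) a) r j)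
    (fun j => jc_jt (R := R) (algebraMap A (Localization.Away b) a) r j)

lemma bf0_jc (x : A) : bf0 R a r b (jc R a r x) = jc R _ r (algebraMap A _ x) := jl_jc _ _ _ _

lemma bf0_jt (j : Fin r) : bf0 R a r b (jt a r j) = jt _ r j := jl_jt _ _ _ _

lemma bf0_unit : IsUnit (bf0 R a r b (jc R a r b)) := by
  rw [bf0_jc]
  exact (aw_unit b).map (jc R (algebraMap A (Localization.Away b) a) r)

variable (R a r) in
/-- the map -/
noncomputable def bf : Localization.Away (jc R a r b) →ₐ[R]
    Jk (Localization.Away b) (algebraMap A _ a) r :=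
  awlift (jc R a r b) (bf0 R a r b) (bf0_unit b)

lemma bf_mk (x : Jk A a r) : bf R a r b (algebraMap _ _ x) = bf0 R a r b x := awlift_mk _ _ _ _

variable (R a r) in
/-- first step of the inverse map -/
noncomputable def bg0 : Localization.Away b →ₐ[R] Localization.Away (jc R a r b) :=
  awlift b ((IsScalarTower.toAlgHom R (Jk A a r) (Localization.Away (jc R a r b))).comp
    (jc R a r)) (aw_unit (jc R a r b))

lemma bg0_mk (x : A) : bg0 R a r b (algebraMap A _ x) = algebraMap (Jk A a r) _ (jc R a r x) :=
  awlift_mk _ _ _ _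

variable (R a r) in
/-- the inverse map -/
noncomputable def bg : Jk (Localization.Away b) (algebraMap A _ a) r →ₐ[R]
    Localization.Away (jc R a r b) :=
  jl (bg0 R a r b) (fun j => algebraMap (Jk A a r) _ (jt a r j)) (fun j => by
    rw [bg0_mk, ← map_mul, jc_jt, map_zero])

lemma bg_jc (x : Localization.Away b) : bg R a r b (jc R _ r x) = bg0 R a r b x := jl_jc _ _ _ _

lemma bg_jt (j : Fin r) : bg R a r b (jt _ r j) = algebraMap (Jk A a r) _ (jt a r j) :=
  jl_jt _ _ _ _

/-- localization at another element -/
noncomputable def jkAway : Localization.Away (jc R a r b) ≃ₐ[R]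
    Jk (Localization.Away b) (algebraMap A (Localization.Away b) a) r :=
  AlgEquiv.ofAlgHom (bf R a r b) (bg R a r b)
    (by
      refine jk_ext _ _ ?_ ?_
      · intro x
        have h : ((bf R a r b).comp (bg R a r b)).comp (jc R (algebraMap A _ a) r) =
            jc R (algebraMap A (Localization.Away b) a) r := by
          refine aw_ext _ _ _ ?_
          intro x
          change bf R a r b (bg R a r b (jc R _ r (algebraMap A _ x))) = _
          rw [bg_jc, bg0_mk, bf_mk, bf0_jc]
        exact congrArg (fun f : Localization.Away b →ₐ[R] _ => f x) h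
      · intro j
        rw [AlgHom.comp_apply, bg_jt, bf_mk, bf0_jt]
        rfl)
    (by
      refine aw_ext _ _ _ ?_
      intro x
      rw [AlgHom.comp_apply, bf_mk]
      have h : (bg R a r b).comp (bf0 R a r b) =
          IsScalarTower.toAlgHom R (Jk A a r) (Localization.Away (jc R a r b)) := by
        refine jk_ext _ _ ?_ ?_
        · intro x
          rw [AlgHom.comp_apply, bf0_jc, bg_jc, bg0_mk]
          rfl
        · intro j
          rw [AlgHom.comp_apply, bf0_jt, bg_jt]
          rfl
      exact congrArg (fun f : Jk A a r →ₐ[R] _ => f x) h)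

end away

/-- `(A_b)_a = A_{ab}` -/
noncomputable def awaway (a b : A) :
    Localization.Away (algebraMap A (Localization.Away b) a) ≃ₐ[R] Localization.Away (a * b) :=
  have hu : IsUnit (algebraMap A (Localization.Away (a * b)) a) ∧
      IsUnit (algebraMap A (Localization.Away (a * b)) b) := by
    have h := aw_unit (a * b)
    rw [map_mul] at h
    exact ⟨isUnit_of_mul_isUnit_left h, isUnit_of_mul_isUnit_right h⟩
  have hb : IsUnit (IsScalarTower.toAlgHom R A (Localization.Away (a * b)) b) := hu.2
  have ha : IsUnit (awlift b (IsScalarTower.toAlgHom R A (Localization.Away (a * b))) hb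
      (algebraMap A (Localization.Away b) a)) := by
    rw [awlift_mk]
    exact hu.1
  have hab : IsUnit (((IsScalarTower.toAlgHom R (Localization.Away b)
      (Localization.Away (algebraMap A (Localization.Away b) a))).comp
      (IsScalarTower.toAlgHom R A (Localization.Away b))) (a * b)) := by
    rw [map_mul]
    exact (aw_unit (algebraMap A (Localization.Away b) a)).mul ((aw_unit b).map
      (algebraMap (Localization.Away b) (Localization.Away (algebraMap A (Localization.Away b) a))))
  AlgEquiv.ofAlgHom
    (awlift _ (awlift b (IsScalarTower.toAlgHom R A (Localization.Away (a * b))) hb) ha)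
    (awlift (a * b) ((IsScalarTower.toAlgHom R (Localization.Away b)
      (Localization.Away (algebraMap A (Localization.Away b) a))).comp
      (IsScalarTower.toAlgHom R A (Localization.Away b))) hab)
    (by
      apply aw_ext
      intro x
      rw [AlgHom.comp_apply, awlift_mk]
      change awlift _ _ _ (algebraMap (Localization.Away b) _ (algebraMap A _ x)) = _
      rw [awlift_mk, awlift_mk]
      rfl)
    (by
      apply aw_ext
      intro x
      rw [AlgHom.comp_apply, awlift_mk]
      have h : (awlift (a * b) ((IsScalarTower.toAlgHom R (Localization.Away b)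
          (Localization.Away (algebraMap A (Localization.Away b) a))).comp
          (IsScalarTower.toAlgHom R A (Localization.Away b))) hab).comp
          (awlift b (IsScalarTower.toAlgHom R A (Localization.Away (a * b))) hb) =
          IsScalarTower.toAlgHom R (Localization.Away b)
            (Localization.Away (algebraMap A (Localization.Away b) a)) := by
        apply aw_ext
        intro x
        rw [AlgHom.comp_apply, awlift_mk]
        change awlift _ _ _ (algebraMap A _ x) = _
        rw [awlift_mk]
        rfl
      exact congrArg (fun f : Localization.Away b →ₐ[R] _ => f x) h)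

end Pool.Agent.Helper3.MM
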