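import Pool.Agent.Helper3.MM.Junk

/-!
# Cohomology with compact supports in low degrees
-/

set_option autoImplicit false

open CategoryTheory CategoryTheory.Limits AlgebraicGeometry MvPolynomial Pool.Agent.Y116.UV
  Pool.Agent.Q193.LT

universe v u

namespace Pool.Agent.Helper3.MM

variable {R : Type} [CommRing R] {𝓐 : Type u} [Category.{v} 𝓐] [Abelian 𝓐]

/-- The cohomology with compact supports is zero in negative degrees. -/
def NegZero (D : CompactData R 𝓐) : Prop :=
  ∀ X : Sch R, FT True X → ∀ q : ℤ, q < 0 → IsZero (D.H q X)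

variable {D : CompactData R 𝓐} (hD : IsCompact D) (hN : NegZero D)

include hD in
/-- If the cohomology of the closed part is zero in two degrees, the open part has the cohomology of the
whole scheme. -/
lemma iso_open {Z X U : Sch R} (i : Z ⟶ X) (j : U ⟶ X) (hX : FT True X) (ht : IsTriple i j) (n : ℤ)
    (h1 : IsZero (D.H n Z)) (h2 : IsZero (D.H (n + 1) Z)) :
    Nonempty (D.H (n + 1) X ≅ D.H (n + 1) U) := by
  obtain ⟨a, b, d, hab, hbd, hda, e1, e2, e3⟩ := hD.exact i j hX ht
  have h3 : Mono (a (n + 1)) := (e3 n).mono_g (h1.eq_zero_of_src _)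
  have h4 : Epi (a (n + 1)) := (e1 (n + 1)).epi_f (h2.eq_zero_of_tgt _)
  have h5 : IsIso (a (n + 1)) := isIso_of_mono_of_epi _
  exact ⟨(asIso (a (n + 1))).symm⟩

include hD in
/-- If the cohomology of the whole scheme is zero in two degrees, the closed part has the cohomology of
the open part, with a shift. -/
lemma iso_closed {Z X U : Sch R} (i : Z ⟶ X) (j : U ⟶ X) (hX : FT True X) (ht : IsTriple i j) (n : ℤ)
    (h1 : IsZero (D.H n X)) (h2 : IsZero (D.H (n + 1) X)) :
    Nonempty (D.H n Z ≅ D.H (n + 1) U) := by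
  obtain ⟨a, b, d, hab, hbd, hda, e1, e2, e3⟩ := hD.exact i j hX ht
  have h3 : Mono (d n) := (e2 n).mono_g (h1.eq_zero_of_src _)
  have h4 : Epi (d n) := (e3 n).epi_f (h2.eq_zero_of_tgt _)
  have h5 : IsIso (d n) := isIso_of_mono_of_epi _
  exact ⟨asIso (d n)⟩

section alg

variable {A B : Type} [CommRing A] [CommRing B] [Algebra R A] [Algebra R B]

include hD in
lemma iso_alg' [Algebra.FiniteType R A] (e : A ≃ₐ[R] B) (n : ℤ) :
    Nonempty (D.H n (aff R A) ≅ D.H n (aff R B)) :=
  hD.iso (ft_aff True) ⟨(affIso e).symm⟩ n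

lemma ft_poly (A : Type) [CommRing A] [Algebra R A] [Algebra.FiniteType R A] (σ : Type) [Finite σ] :
    Algebra.FiniteType R (MvPolynomial σ A) :=
  Algebra.FiniteType.trans (S := A) inferInstance inferInstance

lemma ft_jk (A : Type) [CommRing A] [Algebra R A] [Algebra.FiniteType R A] (a : A) (r : ℕ) :
    Algebra.FiniteType R (Jk A a r) := by
  have := ft_poly (R := R) A (Fin r)
  exact Algebra.FiniteType.of_surjective (Ideal.Quotient.mkₐ R _) (Ideal.Quotient.mkₐ_surjective R _)

lemma ft_away (A : Type) [CommRing A] [Algebra R A] [Algebra.FiniteType R A] (a : A) :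
    Algebra.FiniteType R (Localization.Away a) :=
  Algebra.FiniteType.trans (S := A) inferInstance inferInstance

lemma ft_quot (A : Type) [CommRing A] [Algebra R A] [Algebra.FiniteType R A] (I : Ideal A) :
    Algebra.FiniteType R (A ⧸ I) :=
  Algebra.FiniteType.of_surjective (Ideal.Quotient.mkₐ R _) (Ideal.Quotient.mkₐ_surjective R _)

lemma range_id' (B : Type) [CommRing B] [Algebra R B] (n : ℕ) :
    Set.range (𝟙 (aff R B) : aff R B ⟶ aff R B).left =
    {x : PrimeSpectrum B | ∃ l, f1 B n l ∉ x.asIdeal} := by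
  have h1 : Set.range (𝟙 (aff R B) : aff R B ⟶ aff R B).left = Set.univ := Set.range_id
  have h2 : {x : PrimeSpectrum B | ∃ l, f1 B n l ∉ x.asIdeal} = Set.univ := by
    rw [Set.eq_univ_iff_forall]
    intro x
    exact ⟨0, fun h => x.isPrime.ne_top ((Ideal.eq_top_iff_one _).mpr h)⟩
  exact h1.trans h2.symm

include hD in
/-- The cohomology of `X × 𝔸^r`. -/
lemma poly_iso (B : Type) [CommRing B] [Algebra R B] [Algebra.FiniteType R B] (r : ℕ) (n : ℤ) :
    Nonempty (D.H n (aff R (MvPolynomial (Fin r) B)) ≅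
      (D.tw (-r)).obj (D.H (n - 2 * r) (aff R B))) := by
  have hop : IsOpenImmersion (𝟙 (aff R B) : aff R B ⟶ aff R B).left :=
    inferInstanceAs (IsOpenImmersion (𝟙 (aff R B).left))
  obtain ⟨e⟩ := hD.bundle B (r + 1) (f1 B r) (aff R B) (𝟙 _) hop (range_id' B r) n
  have := ft_poly (R := R) B (Fin (r + 1))
  have h1 : Algebra.FiniteType R (Jou (f1 B r)) := ft_quot _ _
  obtain ⟨e'⟩ := iso_alg' hD ((jouOne B r).restrictScalars R) n
  have h2 : (1 - ((r + 1 : ℕ) : ℤ)) = -r := by
    push_cast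
    ring
  have h3 : n + 2 * (1 - ((r + 1 : ℕ) : ℤ)) = n - 2 * r := by
    push_cast
    ring
  rw [h3, h2] at e
  exact ⟨e'.symm ≪≫ e⟩

include hD hN in
lemma poly_zero (B : Type) [CommRing B] [Algebra R B] [Algebra.FiniteType R B] (r : ℕ) (n : ℤ)
    (h : n < 2 * r) : IsZero (D.H n (aff R (MvPolynomial (Fin r) B))) := by
  have hta := hD.twAdditive
  obtain ⟨e⟩ := poly_iso hD B r n
  refine IsZero.of_iso ?_ e
  exact (D.tw (-r)).map_isZero (hN _ (ft_aff True) _ (by omega))

include hD hN in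
/-- In low degrees `Jk A a r` has the cohomology of the part `a ≠ 0`. -/
lemma jk_low (A : Type) [CommRing A] [Algebra R A] [Algebra.FiniteType R A] (a : A) (r : ℕ) (n : ℤ)
    (h : n < 2 * r) :
    Nonempty (D.H n (aff R (Jk A a r)) ≅ D.H n (aff R (Localization.Away a))) := by
  have h0 := ft_jk (R := R) A a r
  have h1 := ft_quot (R := R) (Jk A a r) (Ideal.span {jc R a r a})
  have h2 := ft_quot (R := R) A (Ideal.span {a})
  have h3 := ft_away (R := R) (Jk A a r) (jc R a r a)
  have hz : ∀ n : ℤ, n < 2 * r → IsZero (D.H n (aff R (Jk A a r ⧸ Ideal.span {jc R a r a}))) := by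
    intro n hn
    obtain ⟨e⟩ := iso_alg' (A := Jk A a r ⧸ Ideal.span {jc R a r a})
      (B := MvPolynomial (Fin r) (A ⧸ Ideal.span {a})) hD jkClosed n
    exact IsZero.of_iso (poly_zero hD hN _ r n hn) e
  obtain ⟨e1⟩ := iso_open hD _ _ (ft_aff True) (triple_away (R := R) (jc R a r a)) (n - 1)
    (hz _ (by omega)) (hz _ (by omega))
  rw [sub_add_cancel] at e1
  obtain ⟨e2⟩ := iso_alg' hD (jkOpen (R := R) (a := a) (r := r)) n
  exact ⟨e1 ≪≫ e2⟩

include hD hN in
/-- The same for two functions. -/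
lemma jk_low2 (A : Type) [CommRing A] [Algebra R A] [Algebra.FiniteType R A] (a b : A) (r : ℕ)
    (n : ℤ) (h : n < 2 * r) :
    Nonempty (D.H n (aff R (Jk (Jk A a r) (jc R a r b) r)) ≅
      D.H n (aff R (Localization.Away (a * b)))) := by
  have h0 := ft_jk (R := R) A a r
  have h1 := ft_away (R := R) A b
  have h2 := ft_away (R := R) (Jk A a r) (jc R a r b)
  have h3 := ft_away (R := R) (Localization.Away b) (algebraMap A (Localization.Away b) a)
  obtain ⟨e1⟩ := jk_low hD hN (Jk A a r) (jc R a r b) r n h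
  obtain ⟨e2⟩ := iso_alg' hD (jkAway (R := R) (a := a) (r := r) b) n
  obtain ⟨e3⟩ := jk_low hD hN (Localization.Away b) (algebraMap A _ a) r n h
  obtain ⟨e4⟩ := iso_alg' hD (awaway (R := R) a b) n
  exact ⟨e1 ≪≫ e2 ≪≫ e3 ≪≫ e4⟩

include hD in
/-- The cohomology of `X` is a direct factor of the one of `X × 𝔾_m`, in the next degree. -/
lemma torus_retract (A : Type) [CommRing A] [Algebra R A] [Algebra.FiniteType R A] (n : ℤ) :
    Nonempty (Retract (D.H n (aff R A)) (D.H (n + 1) (aff R (LaurentPolynomial A)))) := by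
  obtain ⟨e⟩ := hD.torus A (n + 1)
  rw [add_sub_cancel_right] at e
  refine ⟨⟨biprod.inr ≫ e.inv, e.hom ≫ biprod.snd, ?_⟩⟩
  rw [Category.assoc, e.inv_hom_id_assoc, biprod.inr_snd]

include hD in
/-- The twist of the cohomology of `X` is a direct factor of the one of `X × 𝔾_m`. -/
lemma torus_retract' (A : Type) [CommRing A] [Algebra R A] [Algebra.FiniteType R A] (n : ℤ) :
    Nonempty (Retract ((D.tw (-1)).obj (D.H n (aff R A)))
      (D.H (n + 2) (aff R (LaurentPolynomial A)))) := by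
  obtain ⟨e⟩ := hD.torus A (n + 2)
  rw [add_sub_cancel_right] at e
  refine ⟨⟨biprod.inl ≫ e.inv, e.hom ≫ biprod.fst, ?_⟩⟩
  rw [Category.assoc, e.inv_hom_id_assoc, biprod.inl_fst]

end alg

end Pool.Agent.Helper3.MM
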