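import Pool.Agent.Helper3.MM.Form

/-!
# The cohomology of an affine scheme is a direct factor of the cohomology of one hypersurface
-/

set_option autoImplicit false

open CategoryTheory CategoryTheory.Limits AlgebraicGeometry MvPolynomial Pool.Agent.Y116.UV
  Pool.Agent.Q193.LT

universe v u

namespace Pool.Agent.Helper3.MM

variable {R : Type} [CommRing R]

lemma triple_of {A B : Type} [CommRing A] [CommRing B] [Algebra R A] [Algebra R B] {m : ℕ}
    (f : Fin m → A) (π : A →ₐ[R] B) (hs : Function.Surjective π) (h0 : ∀ l, π (f l) = 0)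
    (h1 : ∀ p, π p = 0 → p ∈ Ideal.span (Set.range f)) :
    IsTriple (affMap π) (opnMap (aff R A) (neOpen R f)) where
  closed := closed_affMap _ hs
  opened := inferInstance
  compl := by
    rw [range_affMap _ hs, range_opnMap]
    ext x
    change (∀ a, π a = 0 → a ∈ x.asIdeal) ↔ ¬ ∃ l, f l ∉ x.asIdeal
    push Not
    constructor
    · intro h l
      exact h (f l) (h0 l)
    · intro h a ha
      refine (Ideal.span_le.mpr ?_ : Ideal.span (Set.range f) ≤ x.asIdeal) (h1 a ha)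
      rintro _ ⟨l, rfl⟩
      exact h l

/-- **Occurrence.** -/
theorem occurs {S : Set R} (h0 : 0 ∈ S) (h1 : 1 ∈ S) (hS : Presents S) (A : Type) [CommRing A]
    [Algebra R A] [Algebra.FiniteType R A] (N : ℤ) :
    ∃ (a b c : ℕ) (T : Fin a → Fin b → Fin c → R), (∀ i j k, T i j k ∈ S) ∧
      ∀ {𝓐 : Type u} [Category.{v} 𝓐] [Abelian 𝓐] (D : CompactData R 𝓐), IsCompact D → NegZero D →
        ∀ q ≤ N, Nonempty (Retract (D.H q (aff R A))
          ((D.tw (a - 1)).obj (D.H (q + 2 * a + 1) (hypS T)))) := by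
  classical
  obtain ⟨n, φ, G, hs, hK, hc⟩ := hS A
  let d : ℕ := 1 + ∑ g ∈ G, ∑ m ∈ g.support, m.degree
  have hd1 : 1 ≤ d := by omega
  have hd : ∀ g ∈ G, ∀ m ∈ g.support, m.degree ≤ d := by
    intro g hg m hm
    have h1 : m.degree ≤ ∑ m ∈ g.support, m.degree :=
      Finset.single_le_sum (f := fun m : Fin n →₀ ℕ => m.degree) (fun _ _ => Nat.zero_le _) hm
    have h2 : ∑ m ∈ g.support, m.degree ≤ ∑ g ∈ G, ∑ m ∈ g.support, m.degree :=
      Finset.single_le_sum (f := fun g : MvPolynomial (Fin n) R => ∑ m ∈ g.support, m.degree)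
        (fun _ _ => Nat.zero_le _) hg
    omega
  have hG : ∀ g ∈ G, φ g = 0 := by
    intro g hg
    have : g ∈ RingHom.ker φ := by
      rw [hK]
      exact Ideal.subset_span hg
    exact this
  let r : ℕ := (N + 4).toNat
  have hr : N + 4 ≤ r := Int.self_le_toNat _
  let m : ℕ := Fintype.card (Kx (D := d) G r)
  let e : Fin m ≃ Kx (D := d) G r := (Fintype.equivFin _).symm
  let F : Fin m → PR R n d r := fun l => FF hd1 G r (e l)
  have hF : ∀ l, F l ∈ bilIn S (Ix n d r) (Ix n d r) := fun l => FF_mem hd1 G r h0 h1 hc _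
  choose T' hTS hT using hF
  let b : ℕ := Fintype.card (Ix n d r)
  let eb : Fin b ≃ Ix n d r := (Fintype.equivFin _).symm
  let T : Fin m → Fin b → Fin b → R := fun i j k => T' i (eb j) (eb k)
  have hrange : Set.range F = Set.range (FF hd1 G r) := by
    change Set.range (FF hd1 G r ∘ e) = _
    rw [Set.range_comp, e.range_eq_univ, Set.image_univ]
  refine ⟨m, b, b, T, fun _ _ _ => hTS _ _ _, ?_⟩
  intro 𝓐 _ _ D hD hN q hq
  have hta := hD.twAdditive
  -- the torus
  have f1 := ft_laurent (R := R) A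
  have f2 := ft_laurent (R := R) (LaurentPolynomial A)
  obtain ⟨t1⟩ := torus_retract hD A q
  obtain ⟨t2⟩ := torus_retract hD (LaurentPolynomial A) (q + 1)
  -- the cone
  have fc : Algebra.FiniteType R (LCone hd1 G) :=
    Algebra.FiniteType.trans (S := Cone hd1 G) inferInstance inferInstance
  obtain ⟨c1⟩ := iso_alg' hD (coneEquiv hd1 G φ hG hd hs hK) (q + 1 + 1)
  obtain ⟨c2⟩ := jk_low2 hD hN (Cone hd1 G) (ca hd1 G) (cb hd1 G) r (q + 1 + 1) (by omega)
  rw [ca_cb] at c2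
  -- the complement
  have ht : IsTriple (affMap (pr hd1 G r)) (opnMap (aff R (PR R n d r)) (neOpen R F)) := by
    refine triple_of F _ (pr_surj hd1 G r) (fun l => pr_FF hd1 G r _) (fun p hp => ?_)
    rw [hrange]
    exact pr_zero hd1 G r p hp
  have hz : ∀ n' : ℤ, n' < 2 * r → IsZero (D.H n' (aff R (PR R n d r))) := by
    intro n' hn
    obtain ⟨z⟩ := iso_alg' hD (renameEquiv R (Fintype.equivFin (Ix n d r ⊕ Ix n d r))) n'
    refine IsZero.of_iso (poly_zero hD hN R _ n' ?_) z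
    have h3 : r ≤ Fintype.card (Ix n d r ⊕ Ix n d r) := by
      rw [Fintype.card_sum, Fintype.card_sum, Fintype.card_fin]
      omega
    omega
  obtain ⟨u1⟩ := iso_closed hD _ _ (ft_aff True) ht (q + 1 + 1) (hz _ (by omega)) (hz _ (by omega))
  -- the bundle
  obtain ⟨v1⟩ := hD.bundle (PR R n d r) m F (opn (aff R (PR R n d r)) (neOpen R F))
    (opnMap (aff R (PR R n d r)) (neOpen R F)) inferInstance (range_opnMap _ _) (q + 2 * m + 1)
  have hdeg : q + 2 * (m : ℤ) + 1 + 2 * (1 - (m : ℤ)) = q + 1 + 1 + 1 := by ring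
  rw [hdeg] at v1
  obtain ⟨w1⟩ := hD.twAdd (1 - m) (m - 1)
  obtain ⟨w0⟩ := hD.twZero
  have hsum : (1 - (m : ℤ)) + (m - 1) = 0 := by ring
  rw [hsum] at w1
  have v2 := (D.tw (m - 1)).mapIso v1 ≪≫ w1.app _ ≪≫ w0.app _
  -- the hypersurface
  have hF' : F = fun i => bil (Ix n d r) (Ix n d r) (T' i) := by
    funext i
    exact (hT i).symm
  have fh : Algebra.FiniteType R (Hyp T) := ft_quot _ _
  have fh' : Algebra.FiniteType R (Hyp T') := ft_quot _ _
  obtain ⟨x1⟩ := iso_alg' hD (hypRename (Equiv.refl (Fin m)) eb eb T') (q + 2 * m + 1)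
  obtain ⟨x2⟩ := iso_alg' hD (hypEquiv T') (q + 2 * m + 1)
  rw [← hF'] at x2
  have x3 : D.H (q + 2 * m + 1) (hypS T) ≅ D.H (q + 2 * m + 1) (aff R (Jou F)) := x1 ≪≫ x2
  have k1 := c1.symm ≪≫ c2.symm ≪≫ u1 ≪≫ v2.symm ≪≫ ((D.tw (m - 1)).mapIso x3).symm
  exact ⟨(t1.trans t2).trans (Retract.ofIso k1)⟩

end Pool.Agent.Helper3.MM
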