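import Pool.Agent.Helper3.MM.Occ

/-!
# Tensor categories: one cohomology group of one hypersurface
-/

set_option autoImplicit false

open CategoryTheory CategoryTheory.Limits AlgebraicGeometry MvPolynomial Pool.Agent.Y116.UV
  Pool.Agent.Q193.LT

universe v u

namespace Pool.Agent.Helper3.MM

attribute [local instance] Abelian.hasFiniteBiproducts

/-- The properties of the cohomology with compact supports with values in the mixed motives that are used.

`In M N` says that the motive `M` is in the tensor category `⟨N⟩` generated by `N` (the subquotients of the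
finite direct sums of the motives `N^{⊗a} ⊗ (N^∨)^{⊗b}`), and `𝟙 = H^0_c(Spec R)` is the unit.

* `compact`: the long exact sequences, affine bundles, and `X × 𝔾_m` (see `IsCompact`);
* `negative`: `H^q_c(X) = 0` for `q < 0`;
* `disjoint`: `H^q_c(X ⊔ Y) = H^q_c(X) ⊕ H^q_c(Y)`;
* `trans`, `retract`, `sum`: `⟨N⟩` contains the tensor categories of its objects, the direct factors of `N`,
  and is closed under finite direct sums;
* `twist`: if `𝟙(b)` and `𝟙(b + 1)` are in `⟨N⟩`, then `⟨N⟩` is closed under all Tate twists. -/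
structure IsMixed {R : Type} [CommRing R] {𝓐 : Type u} [Category.{v} 𝓐] [Abelian 𝓐]
    (D : CompactData R 𝓐) (In : 𝓐 → 𝓐 → Prop) : Prop where
  compact : IsCompact D
  negative : ∀ X : Sch R, FT True X → ∀ q : ℤ, q < 0 → IsZero (D.H q X)
  disjoint : ∀ (A B : Type) [CommRing A] [Algebra R A] [Algebra.FiniteType R A] [CommRing B]
    [Algebra R B] [Algebra.FiniteType R B] (q : ℤ),
    Nonempty (D.H q (aff R (A × B)) ≅ D.H q (aff R A) ⊞ D.H q (aff R B))
  trans : ∀ {L M N : 𝓐}, In L M → In M N → In L N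
  retract : ∀ {M N : 𝓐}, Retract M N → In M N
  sum : ∀ {J : Type} [Finite J] (M : J → 𝓐) (N : 𝓐), (∀ j, In (M j) N) → In (⨁ M) N
  twist : ∀ (b : ℤ) (N : 𝓐), In ((D.tw b).obj (D.H 0 (aff R R))) N →
    In ((D.tw (b + 1)).obj (D.H 0 (aff R R))) N → ∀ (a : ℤ) (M : 𝓐), In M N → In ((D.tw a).obj M) N

variable {R : Type} [CommRing R]

/-- an affine scheme of finite type -/
structure Aff (R : Type) [CommRing R] : Type 1 where
  /-- the ring of functions -/
  A : Type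
  [ring : CommRing A]
  [algebra : Algebra R A]
  [ft : Algebra.FiniteType R A]

attribute [instance] Aff.ring Aff.algebra Aff.ft

/-- the scheme -/
noncomputable def Aff.sch (X : Aff R) : Sch R := aff R X.A

/-- `H^q(X)` is a direct factor of `H^p(Y)` in all theories. -/
def Occ (X : Aff R) (q : ℤ) (Y : Aff R) (p : ℤ) : Prop :=
  ∀ (𝓐 : Type u) [Category.{v} 𝓐] [Abelian 𝓐] (D : CompactData R 𝓐) (In : 𝓐 → 𝓐 → Prop),
    IsMixed D In → Nonempty (Retract (D.H q X.sch) (D.H p Y.sch))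

lemma Occ.trans {X Y Z : Aff R} {q p s : ℤ} (h : Occ.{v, u} X q Y p) (h' : Occ.{v, u} Y p Z s) :
    Occ.{v, u} X q Z s := by
  intro 𝓐 _ _ D In hD
  obtain ⟨a⟩ := h 𝓐 D In hD
  obtain ⟨b⟩ := h' 𝓐 D In hD
  exact ⟨a.trans b⟩

/-- `X × 𝔾_m` -/
noncomputable def Aff.tor (X : Aff R) : Aff R :=
  have := ft_laurent (R := R) X.A
  ⟨LaurentPolynomial X.A⟩

/-- `X ⊔ Y` -/
def Aff.prod (X Y : Aff R) : Aff R := ⟨X.A × Y.A⟩

lemma occ_tor (X : Aff R) (q : ℤ) : Occ.{v, u} X q X.tor (q + 1) := by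
  intro 𝓐 _ _ D In hD
  exact torus_retract hD.compact X.A q

lemma occ_left (X Y : Aff R) (q : ℤ) : Occ.{v, u} X q (X.prod Y) q := by
  intro 𝓐 _ _ D In hD
  obtain ⟨e⟩ := hD.disjoint X.A Y.A q
  have e : D.H q (X.prod Y).sch ≅ D.H q X.sch ⊞ D.H q Y.sch := e
  exact ⟨⟨biprod.inl ≫ e.inv, e.hom ≫ biprod.fst, by
    rw [Category.assoc, e.inv_hom_id_assoc, biprod.inl_fst]⟩⟩

lemma occ_right (X Y : Aff R) (q : ℤ) : Occ.{v, u} Y q (X.prod Y) q := by
  intro 𝓐 _ _ D In hD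
  obtain ⟨e⟩ := hD.disjoint X.A Y.A q
  have e : D.H q (X.prod Y).sch ≅ D.H q X.sch ⊞ D.H q Y.sch := e
  exact ⟨⟨biprod.inr ≫ e.inv, e.hom ≫ biprod.snd, by
    rw [Category.assoc, e.inv_hom_id_assoc, biprod.inr_snd]⟩⟩

lemma occ_shift (X : Aff R) (q : ℤ) (c : ℕ) : ∃ Y : Aff R, Occ.{v, u} X q Y (q + c) := by
  induction c with
  | zero =>
    refine ⟨X, ?_⟩
    intro 𝓐 _ _ D In hD
    rw [Nat.cast_zero, add_zero]
    exact ⟨Retract.refl _⟩
  | succ c ih =>
    obtain ⟨Y, h⟩ := ih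
    refine ⟨Y.tor, h.trans ?_⟩
    have h1 := occ_tor.{v, u} Y (q + c)
    rw [Nat.cast_succ, ← add_assoc]
    exact h1

lemma occ_deg (X : Aff R) (q p : ℤ) (h : q ≤ p) : ∃ Y : Aff R, Occ.{v, u} X q Y p := by
  obtain ⟨Y, hY⟩ := occ_shift.{v, u} X q (p - q).toNat
  have h1 : q + ((p - q).toNat : ℤ) = p := by
    rw [Int.toNat_of_nonneg (by omega)]
    ring
  rw [h1] at hY
  exact ⟨Y, hY⟩

/-- Finitely many cohomology groups in one. -/
lemma occ_fin (n : ℕ) (X : Fin n → Aff R) (q : Fin n → ℤ) (p : ℤ) (h : ∀ j, q j ≤ p) :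
    ∃ Y : Aff R, ∀ j, Occ.{v, u} (X j) (q j) Y p := by
  induction n with
  | zero => exact ⟨⟨R⟩, fun j => j.elim0⟩
  | succ n ih =>
    obtain ⟨Y, hY⟩ := ih (fun j => X j.succ) (fun j => q j.succ) (fun j => h _)
    obtain ⟨Z, hZ⟩ := occ_deg.{v, u} (X 0) (q 0) p (h 0)
    refine ⟨Z.prod Y, fun j => ?_⟩
    refine Fin.cases ?_ (fun j => ?_) j
    · exact hZ.trans (occ_left Z Y p)
    · exact (hY j).trans (occ_right Z Y p)

lemma occ_finite {J : Type} [Finite J] (X : J → Aff R) (q : J → ℤ) :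
    ∃ (p : ℤ) (Y : Aff R), ∀ j, Occ.{v, u} (X j) (q j) Y p := by
  classical
  have := Fintype.ofFinite J
  let e := Fintype.equivFin J
  obtain ⟨Y, hY⟩ := occ_fin.{v, u} (Fintype.card J) (fun j => X (e.symm j)) (fun j => q (e.symm j))
    (∑ j, |q j|) (fun j => (le_abs_self _).trans
      (Finset.single_le_sum (f := fun j => |q j|) (fun _ _ => abs_nonneg _) (Finset.mem_univ _)))
  refine ⟨∑ j, |q j|, Y, fun j => ?_⟩
  have h := hY (e j)
  rw [e.symm_apply_apply] at h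
  exact h

/-- A finite direct sum of Tate twists of cohomology groups of affine schemes. -/
noncomputable def bigSum {𝓐 : Type u} [Category.{v} 𝓐] [Abelian 𝓐] (D : CompactData R 𝓐) {J : Type}
    [Finite J] (X : J → Aff R) (q a : J → ℤ) : 𝓐 :=
  ⨁ fun j => (D.tw (a j)).obj (D.H (q j) (X j).sch)

/-- **One group is enough.** -/
theorem one_group {S : Set R} (h0 : 0 ∈ S) (h1 : 1 ∈ S) (hS : Presents S) {J : Type} [Finite J]
    (X : J → Aff R) (q : J → ℤ) :
    ∃ (a b c : ℕ) (T : Fin a → Fin b → Fin c → R) (p : ℤ), (∀ i j k, T i j k ∈ S) ∧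
      ∀ {𝓐 : Type u} [Category.{v} 𝓐] [Abelian 𝓐] (D : CompactData R 𝓐) (In : 𝓐 → 𝓐 → Prop),
        IsMixed D In → ∀ w : J → ℤ, In (bigSum D X q w) (D.H p (hypS T)) := by
  classical
  -- the unit and its twist
  let X' : Option (Option J) → Aff R := fun j => j.elim ⟨R⟩ fun j => j.elim (Aff.tor ⟨R⟩) X
  let q' : Option (Option J) → ℤ := fun j => j.elim 0 fun j => j.elim 2 q
  obtain ⟨p, Y, hY⟩ := occ_finite.{v, u} X' q'
  obtain ⟨a, b, c, T, hT, hocc⟩ := occurs.{v, u} h0 h1 hS Y.A p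
  refine ⟨a, b, c, T, p + 2 * a + 1, hT, ?_⟩
  intro 𝓐 _ _ D In hD w
  obtain ⟨r⟩ := hocc D hD.compact hD.negative p le_rfl
  obtain ⟨w0⟩ := hD.compact.twZero
  have comp : ∀ (x y : ℤ) (M : 𝓐), Nonempty ((D.tw y).obj ((D.tw x).obj M) ≅ (D.tw (x + y)).obj M) :=
    fun x y M => by
      obtain ⟨e⟩ := hD.compact.twAdd x y
      exact ⟨e.app M⟩
  have iso_in : ∀ {M N : 𝓐}, (M ≅ N) → In M N := fun e => hD.retract (Retract.ofIso e)
  have key : ∀ j, In ((D.tw (1 - a)).obj (D.H (q' j) (X' j).sch)) (D.H (p + 2 * a + 1) (hypS T)) := by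
    intro j
    obtain ⟨s⟩ := hY j 𝓐 D In hD
    have r2 : Retract (D.H (q' j) (X' j).sch) ((D.tw (a - 1)).obj (D.H (p + 2 * a + 1) (hypS T))) :=
      s.trans r
    obtain ⟨e⟩ := comp (a - 1) (1 - a) (D.H (p + 2 * a + 1) (hypS T))
    have h3 : ((a : ℤ) - 1) + (1 - a) = 0 := by ring
    rw [h3] at e
    exact hD.retract ((r2.map (D.tw (1 - a))).trans (Retract.ofIso (e ≪≫ w0.app _)))
  have t0 : In ((D.tw (-a)).obj (D.H 0 (aff R R))) (D.H (p + 2 * a + 1) (hypS T)) := by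
    have h := key (some none)
    obtain ⟨s⟩ := torus_retract' hD.compact R 0
    obtain ⟨e⟩ := comp (-1) (1 - a) (D.H 0 (aff R R))
    have h3 : (-1 : ℤ) + (1 - a) = -a := by ring
    rw [h3] at e
    have h4 : Retract ((D.tw (1 - a)).obj ((D.tw (-1)).obj (D.H 0 (aff R R))))
        ((D.tw (1 - a)).obj (D.H (q' (some none)) (X' (some none)).sch)) := s.map _
    exact hD.trans (hD.trans (iso_in e.symm) (hD.retract h4)) h
  have t1 : In ((D.tw (-a + 1)).obj (D.H 0 (aff R R))) (D.H (p + 2 * a + 1) (hypS T)) := by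
    have h := key none
    have h3 : -(a : ℤ) + 1 = 1 - a := by ring
    rw [h3]
    exact h
  refine hD.sum _ _ fun j => ?_
  have h := hD.twist (-a) _ t0 t1 (w j + (a - 1)) _ (key (some (some j)))
  obtain ⟨e⟩ := comp (1 - a) (w j + (a - 1)) (D.H (q j) (X j).sch)
  have h3 : (1 - (a : ℤ)) + (w j + (a - 1)) = w j := by ring
  rw [h3] at e
  exact hD.trans (iso_in e.symm) h

end Pool.Agent.Helper3.MM
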